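import Pool.Agent.helper10.OM.Spec

/-!
# Row OMC: from OMEGA to good exponents among the multiples of `r`
-/

set_option autoImplicit false

namespace Pool.Agent.OM

open Finset Real Pool.Agent.AT Pool.Agent.helper85.FC

lemma OMC_pow (a b m q T r : ℕ) (c : ℤ) : NT (a ^ r) (b ^ r) m q T c = NT a b (r * m) q T c := by
  unfold NT
  rw [← pow_mul, ← pow_mul]

open Classical in
lemma OMC_NT (a b m q T : ℕ) (c : ℤ) : NT a b m q T c =
    ((range T).filter fun t : ℕ => TrueCase (b ^ m) (a ^ m) (c + q * (t : ℤ))).card := by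
  have h1 : (do let x ← range T; pure (x : ℤ) : Finset ℤ) = (range T).image fun x : ℕ => (x : ℤ) := by
    ext z
    simp [Finset.bind_def, eq_comm]
  have h2 : NT a b m q T c = (((range T).image fun x : ℕ => (x : ℤ)).filter
      fun t : ℤ => TrueCase (b ^ m) (a ^ m) (c + q * t)).card := by
    unfold NT
    rw [h1]
  rw [h2, Finset.filter_image, Finset.card_image_of_injective _ Nat.cast_injective]

lemma OMC_add (a b m q S T : ℕ) (c : ℤ) :
    NT a b m q (S + T) c = NT a b m q S c + NT a b m q T (c + q * S) := by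
  classical
  rw [OMC_NT, OMC_NT, OMC_NT]
  rw [Finset.card_filter, Finset.card_filter, Finset.card_filter, Finset.sum_range_add]
  refine congrArg₂ (· + ·) rfl (Finset.sum_congr rfl fun t _ => ?_)
  have h : c + (q : ℤ) * ((S + t : ℕ) : ℤ) = c + q * S + q * t := by push_cast; ring
  rw [h]

lemma OMC_le (a b m q T : ℕ) (c : ℤ) : NT a b m q T c ≤ T := by
  classical
  rw [OMC_NT]
  refine (Finset.card_filter_le _ _).trans ?_
  rw [Finset.card_range]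

/-- Cutting into blocks. -/
lemma OMC_blk (a b m q T : ℕ) (B : ℝ) (c : ℤ) (h : ∀ u : ℤ, (NT a b m q T (c + q * u) : ℝ) ≤ B) (k : ℕ) :
    (NT a b m q (k * T) c : ℝ) ≤ k * B := by
  induction k with
  | zero =>
    have h0 := OMC_le a b m q (0 * T) c
    rw [zero_mul] at h0
    have h1 : NT a b m q (0 * T) c = 0 := by rw [zero_mul]; omega
    rw [h1]
    simp
  | succ k ih =>
    rw [Nat.succ_mul, OMC_add]
    push_cast
    have h2 := h (k * T)
    linarith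

/-- The case `r = 1` of the pigeonhole argument. -/
lemma OMC_pig (a b L q : ℕ) (hq : 1 ≤ q) (ε : ℝ)
    (h : ∀ T : ℕ, 1 ≤ T → ∃ m : ℕ, 1 ≤ m ∧ m < L ∧ ∃ c : ℤ, (1 - ε) * T ≤ NT a b m q T c) :
    ∃ m : ℕ, 1 ≤ m ∧ m < L ∧ ∃ r : ℕ, ∀ N : ℕ, ∃ T : ℕ, N < T ∧ ∃ u : ℤ,
      (1 - ε) * T ≤ NT a b m q T (r + q * u) := by
  have hq0 : (0 : ℤ) < q := by exact_mod_cast hq
  choose m hm1 hmL c hc using fun T : ℕ => h (T + 1) (by omega)
  have hlt : ∀ T, (c T % q).toNat < q := by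
    intro T
    have h1 := Int.emod_nonneg (c T) hq0.ne'
    have h2 := Int.emod_lt_of_pos (c T) hq0
    omega
  obtain ⟨⟨m₀, r₀⟩, hinf⟩ := Finite.exists_infinite_fiber
    (fun T : ℕ => ((⟨m T, hmL T⟩, ⟨(c T % q).toNat, hlt T⟩) : Fin L × Fin q))
  rw [Set.infinite_coe_iff] at hinf
  obtain ⟨T₀, hT₀⟩ := hinf.nonempty
  have hm₀ : m T₀ = m₀ := by
    have := congrArg (fun p : Fin L × Fin q => (p.1 : ℕ)) hT₀
    exact this
  refine ⟨m₀, by rw [← hm₀]; exact hm1 T₀, m₀.2, r₀, fun N => ?_⟩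
  obtain ⟨T, hT, hNT⟩ := hinf.exists_gt N
  have h3 : m T = m₀ := by
    have := congrArg (fun p : Fin L × Fin q => (p.1 : ℕ)) hT
    exact this
  have h4 : (c T % q).toNat = r₀ := by
    have := congrArg (fun p : Fin L × Fin q => (p.2 : ℕ)) hT
    exact this
  refine ⟨T + 1, by omega, c T / q, ?_⟩
  have h5 : ((r₀ : ℕ) : ℤ) + q * (c T / q) = c T := by
    rw [← h4, Int.toNat_of_nonneg (Int.emod_nonneg _ hq0.ne')]
    exact Int.emod_add_mul_ediv (c T) q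
  rw [h5, ← h3]
  exact hc T

theorem OMC : OMC_stmt := by
  classical
  intro hO ε hε
  set e : ℝ := min ε 1 with he
  have he0 : 0 < e := lt_min hε one_pos
  have he1 : e ≤ 1 := min_le_right _ _
  have hee : e ≤ ε := min_le_left _ _
  obtain ⟨L, hL, hO⟩ := hO (e / 16) (by positivity)
  refine ⟨L, fun a b ha hb hab hne r hr => ?_⟩
  have hne' : a ^ r ≠ b ^ r := fun h => hne (Nat.pow_left_injective (by omega) h)
  obtain ⟨q, hq, hO⟩ := hO L le_rfl (a ^ r) (b ^ r) (Nat.one_le_pow _ _ ha) (Nat.one_le_pow _ _ hb)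
    (Nat.Coprime.pow _ _ hab) hne'
  have key : ∀ T : ℕ, 1 ≤ T → ∃ m : ℕ, 1 ≤ m ∧ m < L ∧ ∃ c : ℤ,
      (1 - e / 16) * T ≤ NT (a ^ r) (b ^ r) m q T c := by
    intro T hT
    obtain ⟨Y₀, hY⟩ := hO T hT
    have h1 := hY (max Y₀ 1) (le_max_left _ _)
    have hYp : (0 : ℝ) < ((max Y₀ 1 : ℕ) : ℝ) := by
      have : 0 < max Y₀ 1 := lt_of_lt_of_le one_pos (le_max_right _ _)
      exact_mod_cast this
    have hLp : (0 : ℝ) < L := by exact_mod_cast hL
    have h2 : (0 : ℝ) < (1 / 6 - e / 16) * ((L : ℝ) * ((max Y₀ 1 : ℕ) : ℝ)) ^ 2 := by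
      have : (0 : ℝ) < 1 / 6 - e / 16 := by linarith
      positivity
    have h3 := lt_of_lt_of_le h2 h1
    have h4 := Nat.cast_pos.mp h3
    obtain ⟨t, ht⟩ := Finset.card_pos.mp h4
    rw [Finset.mem_filter, Finset.mem_product] at ht
    obtain ⟨⟨ht1, ht2⟩, ht3, ht4⟩ := ht
    unfold VV at ht1
    rw [Finset.mem_product, Finset.mem_range, Finset.mem_range] at ht1
    exact ⟨t.1.1 - t.2.1, by omega, by omega, _, ht4⟩
  obtain ⟨m, hm1, hmL, ρ, hρ⟩ := OMC_pig _ _ _ _ hq _ key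
  refine ⟨m, hm1, hmL, q, ρ, hq, fun T hT => ?_⟩
  by_contra hcon
  push Not at hcon
  have hT0 : (0 : ℝ) < T := by exact_mod_cast hT
  obtain ⟨T₁, hT₁, u₁, hu₁⟩ := hρ (⌈2 / e⌉₊ * T)
  have hbig : 2 / e * T < T₁ := by
    have h1 : (2 / e : ℝ) ≤ ⌈2 / e⌉₊ := Nat.le_ceil _
    have h2 : ((⌈2 / e⌉₊ * T : ℕ) : ℝ) < T₁ := by exact_mod_cast hT₁
    push_cast at h2
    nlinarith
  have hbig2 : 2 * (T : ℝ) < e * T₁ := by
    rw [div_mul_eq_mul_div, div_lt_iff₀ he0] at hbig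
    linarith
  have hdiv : T₁ / T * T + T₁ % T = T₁ := by rw [mul_comm]; exact Nat.div_add_mod _ _
  have hmod : T₁ % T < T := Nat.mod_lt _ hT
  have hb : ∀ u : ℤ, (NT (a ^ r) (b ^ r) m q T ((ρ + q * u₁ : ℤ) + q * u) : ℝ) ≤ (1 - e) * T := by
    intro u
    have h1 := hcon (u₁ + u)
    rw [← OMC_pow] at h1
    have h2 : ((ρ : ℤ) + q * (u₁ + u)) = (ρ + q * u₁ : ℤ) + q * u := by ring
    rw [h2] at h1
    nlinarith
  have h5 := OMC_blk (a ^ r) (b ^ r) m q T _ _ hb (T₁ / T)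
  have h6 : (NT (a ^ r) (b ^ r) m q T₁ (ρ + q * u₁) : ℝ) ≤ (T₁ / T : ℕ) * ((1 - e) * T) + T := by
    have h7 := OMC_add (a ^ r) (b ^ r) m q (T₁ / T * T) (T₁ % T) (ρ + q * u₁)
    rw [hdiv] at h7
    have h8 := OMC_le (a ^ r) (b ^ r) m q (T₁ % T) (ρ + q * u₁ + q * ((T₁ / T * T : ℕ) : ℤ))
    rw [h7]
    push_cast
    have h9 : (NT (a ^ r) (b ^ r) m q (T₁ % T) (ρ + q * u₁ + q * ((T₁ / T * T : ℕ) : ℤ)) : ℝ) ≤ T := by
      exact_mod_cast h8.trans hmod.le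
    push_cast at h9
    linarith
  have h7 : ((T₁ / T : ℕ) : ℝ) * T ≤ T₁ := by exact_mod_cast Nat.div_mul_le_self _ _
  have h8 : ((T₁ / T : ℕ) : ℝ) * ((1 - e) * T) ≤ (1 - e) * T₁ := by
    have : ((T₁ / T : ℕ) : ℝ) * ((1 - e) * T) = (1 - e) * (((T₁ / T : ℕ) : ℝ) * T) := by ring
    rw [this]
    exact mul_le_mul_of_nonneg_left h7 (by linarith)
  have h9 : (0 : ℝ) ≤ T₁ := by positivity
  nlinarith

end Pool.Agent.OM
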